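import Pool.Agent.H451.PV.A1

/-!
# The factorization, and the `L`-function of a diagonal cubic hypersurface
-/

set_option autoImplicit false
set_option linter.unusedSectionVars false
set_option linter.unusedVariables false

namespace Pool.Agent.H451.PV

open NumberField IsDedekindDomain WeierstrassCurve
open Pool.Agent.H921R2.TatePole (nm)
open Pool.Agent.Y703.CT
open Pool.Agent.Y696 hiding HH RR
open Pool.Agent.Y696.CT
open Pool.Agent.Y696.CTK hiding toC_w
open Pool.Agent.Y692.QS hiding chi Jc Jc_nr chi_red chi_neg_one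
open Pool.Agent.Y715.T.Rec (cs nn)
open Pool.Agent.Y715.T.RecG (Pq)
open Pool.Agent.Y715.T.Om (Om Om_pos exists_lat)
open Pool.Agent.H451.BB
open Pool.Agent.H462.CTU.Val (IsHLk)
open Pool.Agent.H462.CTU.LK (Dk)
open scoped Classical PeriodPair

/-- the factorization of an element prime to three -/
lemma fact (D : Ei) : D ≠ 0 → ¬ (3 : ℤ) ∣ nr D → ∃ (u : Ei) (f : Ei →₀ ℕ), IsUnit u ∧
    (∀ ρ ∈ f.support, Pq ρ) ∧ D = u * f.prod fun ρ n => ρ ^ n := by
  induction D using UniqueFactorizationMonoid.induction_on_prime with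
  | h₁ => intro h; exact absurd rfl h
  | h₂ x hx =>
    intro _ _
    exact ⟨x, 0, hx, fun ρ h => absurd h (by simp), by simp⟩
  | h₃ a p ha hp ih =>
    intro h0 h3
    rw [nr_mul] at h3
    have h3p : ¬ (3 : ℤ) ∣ nr p := fun h => h3 (Dvd.dvd.mul_right h _)
    have h3a : ¬ (3 : ℤ) ∣ nr a := fun h => h3 (Dvd.dvd.mul_left h _)
    obtain ⟨u, f, hu, hf, hD⟩ := ih ha h3a
    have h4 := (ep_cases p h3p).2
    have hv : IsUnit (ep p) := IsUnit.of_mul_eq_one (star (ep p)) (by rw [mul_comm, h4])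
    have hp' : p = ep p * ns p := by
      unfold ns
      rw [← mul_assoc, mul_comm (ep p), h4, one_mul]
    have hq : Pq (ns p) := by
      refine ⟨?_, ns_one h3p⟩
      have h5 : Associated p (ns p) := by
        obtain ⟨v, hv'⟩ := hv
        refine Associated.symm ⟨v, ?_⟩
        rw [hv', mul_comm, ← hp']
      exact h5.prime hp
    refine ⟨ep p * u, f + Finsupp.single (ns p) 1, hv.mul hu, ?_, ?_⟩
    · intro ρ hρ
      have h6 := Finsupp.support_add hρ
      rw [Finset.mem_union] at h6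
      rcases h6 with h6 | h6
      · exact hf ρ h6
      · have h7 := Finsupp.support_single_subset h6
        rw [Finset.mem_singleton] at h7
        rw [h7]
        exact hq
    · rw [Finsupp.prod_add_index' (fun _ => pow_zero _) (fun _ _ _ => pow_add _ _ _),
        Finsupp.prod_single_index (pow_zero _), pow_one]
      conv_lhs => rw [hp', hD]
      ring

/-- `D` is prime to three and not the product of a unit and a cube -/
def Gen (D : Ei) : Prop := ¬ (3 : ℤ) ∣ nr D ∧ ∀ u c : Ei, IsUnit u → D ≠ u * c ^ 3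

lemma Gen.ne {D : Ei} (h : Gen D) : D ≠ 0 := by
  intro h0
  exact h.2 1 0 isUnit_one (by rw [h0]; ring)

lemma dk_cube {J : Type} [Fintype J] {π : J → Ei} {e : J → ZMod 3} {k : ZMod 3} {D : Ei}
    (hdt : Dt π e) (hD : Dk k π e D) (ρ : Ei) (hρ : Prime ρ) : ¬ ρ ^ 3 ∣ D := by
  intro h
  apply pD_cube hdt ρ hρ
  have hu : IsUnit ((w : Ei) ^ k.val) := IsUnit.pow _ ⟨⟨w, w ^ 2, by decide, by decide⟩, rfl⟩
  rcases hD with h1 | h1
  · rw [h1, hu.dvd_mul_left] at h
    exact h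
  · rw [h1, dvd_neg, hu.dvd_mul_left] at h
    exact h

theorem gen_base {D : Ei} (h : Gen D) : ∃ c d : Ei, c ≠ 0 ∧ d ≠ 0 ∧ D = c ^ 3 * d ∧
    (∀ ρ : Ei, Prime ρ → ¬ ρ ^ 3 ∣ d) ∧ PLq d := by
  obtain ⟨u, f, hu, hf, hD⟩ := fact D h.ne h.1
  set F : Finset Ei := f.support.filter fun ρ => f ρ % 3 ≠ 0 with hF
  set π : F → Ei := fun x => x.1 with hπ
  set e : F → ZMod 3 := fun x => (f x.1 : ZMod 3) with he
  have hval : ∀ x : F, (e x).val = f x.1 % 3 := fun x => by rw [he]; exact ZMod.val_natCast _ _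
  have hmem : ∀ x : F, x.1 ∈ f.support ∧ f x.1 % 3 ≠ 0 := fun x => Finset.mem_filter.1 x.2
  have hdt : Dt π e := by
    refine ⟨fun x => hf _ (hmem x).1, fun x y hxy hd => ?_, fun x h0 => ?_⟩
    · exact hxy (Subtype.ext (Pool.Agent.Y699.E.eq_of_dvd (hf _ (hmem y).1) (hf _ (hmem x).1) hd).symm)
    · apply (hmem x).2
      rw [← hval x, h0, ZMod.val_zero]
  set c : Ei := ∏ ρ ∈ f.support, ρ ^ (f ρ / 3) with hc
  have hc0 : c ≠ 0 := Finset.prod_ne_zero_iff.2 fun ρ hρ => pow_ne_zero _ (hf ρ hρ).prime.ne_zero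
  have hpd : pD π e = ∏ ρ ∈ f.support, ρ ^ (f ρ % 3) := by
    unfold pD
    rw [Finset.prod_congr rfl fun x _ => by rw [hval x]]
    rw [Finset.prod_coe_sort F fun ρ => ρ ^ (f ρ % 3)]
    rw [hF, Finset.prod_filter]
    refine Finset.prod_congr rfl fun ρ _ => ?_
    split_ifs with h1
    · rfl
    · rw [not_not] at h1
      rw [h1, pow_zero]
  have hprod : (f.prod fun ρ n => ρ ^ n) = c ^ 3 * pD π e := by
    rw [hpd, hc, ← Finset.prod_pow, ← Finset.prod_mul_distrib]
    unfold Finsupp.prod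
    refine Finset.prod_congr rfl fun ρ _ => ?_
    rw [← pow_mul, ← pow_add]
    congr 1
    omega
  obtain ⟨k, hk⟩ := Pool.Agent.Y715.T.RecC.unit_form hu
  have hDk : Dk k π e (u * pD π e) := by
    rcases hk with h1 | h1
    · left; rw [h1]
    · right; rw [h1]; ring
  have hne : Nonempty F := by
    by_contra hE
    rw [not_nonempty_iff] at hE
    apply h.2 u c hu
    rw [hD, hprod]
    have : pD π e = 1 := by
      unfold pD
      exact Finset.prod_of_isEmpty _
    rw [this, mul_one]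
  refine ⟨c, u * pD π e, hc0, Pool.Agent.H508.Y.dk_ne hdt hDk, ?_, dk_cube hdt hDk, plq hdt hDk⟩
  rw [hD, hprod]
  ring

/-! ### The `L`-function of the hypersurface -/

/-- the `L`-function, over the primes of the Eisenstein integers; `Z` is any condition which implies that
the values are not zero -/
theorem famV {m : ℕ} (hm : m = 3 ∨ m = 5 ∨ m = 7) (a : Fin m → Ei) (ha : ∀ i, a i ≠ 0) (Z : Prop)
    (h : ∀ S : Finset (Fin m), S.card = (m - 3) / 2 → ∃ d b c : Ei, PLq d ∧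
      (∀ ρ : Ei, Prime ρ → ¬ ρ ^ 3 ∣ d) ∧ d ≠ 0 ∧ b ≠ 0 ∧ c ≠ 0 ∧
      b ^ 3 * DD a S = c ^ 3 * d ∧ (Z → PL d)) :
    ∃ L : ℂ → ℂ, Differentiable ℂ L ∧
      (∀ s : ℂ, (m : ℝ) / 2 < s.re → HasProd (fun P : {P // GoodP a P} =>
        ∏ S ∈ Finset.powersetCard ((m - 3) / 2) (Finset.univ : Finset (Fin m)),
          (fac (DD a S) (s - ((m - 3) / 2 : ℕ)) P.1)⁻¹) (L s)) ∧
      ∃ q : ℚ, (Z → q ≠ 0) ∧ L (((m : ℂ) - 1) / 2) = q *
        ((∏ S ∈ Finset.powersetCard ((m - 3) / 2) (Finset.univ : Finset (Fin m)),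
          pn (nr (DD a S)) : ℝ) : ℂ) := by
  have hb := bad_fin a ha
  set B : Finset (HeightOneSpectrum Ei) := hb.toFinset with hB
  have hBm : ∀ P, P ∉ B ↔ GoodP a P := by
    intro P
    rw [hB, Set.Finite.mem_toFinset]
    exact not_not
  have key : ∀ S : Finset (Fin m), ∃ (L : ℂ → ℂ) (q : ℚ), S.card = (m - 3) / 2 →
      Differentiable ℂ L ∧ (Z → L 1 ≠ 0) ∧ (∀ s : ℂ, 3 / 2 < s.re →
        HasProd (fun P : {P // P ∉ B} => (fac (DD a S) s P.1)⁻¹) (L s)) ∧
      L 1 = q * (pn (nr (DD a S)) : ℂ) := by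
    intro S
    by_cases hS : S.card = (m - 3) / 2
    · obtain ⟨d, b, c, hd, hd3, hd0, hb0, hc0, hbc, hZ⟩ := h S hS
      obtain ⟨L, k1, k2, k3, q, k4⟩ := rem_val hd3 hb0 hc0 hbc hd hd0 B fun P hP => by
        obtain ⟨g1, g2⟩ := (hBm P).1 hP
        exact ⟨g1, DD_ndvd (rho_pq g1).prime g2 S⟩
      exact ⟨L, q, fun _ => ⟨k1, fun hz => k2 (hZ hz), k3, k4⟩⟩
    · exact ⟨0, 0, fun h => absurd h hS⟩
  choose L q hL using key
  have hhR : (((m - 3) / 2 : ℕ) : ℂ) = ((m : ℂ) - 3) / 2 := by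
    rcases hm with rfl | rfl | rfl <;> norm_num
  have hhR' : (((m - 3) / 2 : ℕ) : ℝ) = ((m : ℝ) - 3) / 2 := by
    rcases hm with rfl | rfl | rfl <;> norm_num
  have hcen : ((m : ℂ) - 1) / 2 - ((m - 3) / 2 : ℕ) = 1 := by
    rw [hhR]
    ring
  refine ⟨fun s => ∏ S ∈ Finset.powersetCard ((m - 3) / 2) (Finset.univ : Finset (Fin m)),
    L S (s - ((m - 3) / 2 : ℕ)), ?_, fun s hs => ?_,
    ∏ S ∈ Finset.powersetCard ((m - 3) / 2) (Finset.univ : Finset (Fin m)), q S, fun hz => ?_, ?_⟩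
  · refine Differentiable.fun_finsetProd fun S hS => ?_
    have h1 := (hL S (Finset.mem_powersetCard.1 hS).2).1
    exact h1.comp (differentiable_id.sub_const _)
  · have h1 : HasProd (fun P : {P // P ∉ B} =>
        ∏ S ∈ Finset.powersetCard ((m - 3) / 2) (Finset.univ : Finset (Fin m)),
          (fac (DD a S) (s - ((m - 3) / 2 : ℕ)) P.1)⁻¹)
        (∏ S ∈ Finset.powersetCard ((m - 3) / 2) (Finset.univ : Finset (Fin m)),
          L S (s - ((m - 3) / 2 : ℕ))) := by
      refine hasProd_prod fun S hS => ?_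
      refine (hL S (Finset.mem_powersetCard.1 hS).2).2.2.1 _ ?_
      rw [Complex.sub_re, Complex.natCast_re, hhR']
      linarith
    set φ : HeightOneSpectrum Ei → ℂ := fun P =>
      ∏ S ∈ Finset.powersetCard ((m - 3) / 2) (Finset.univ : Finset (Fin m)),
          (fac (DD a S) (s - ((m - 3) / 2 : ℕ)) P)⁻¹ with hφ
    have h1' : HasProd (fun P : {P // P ∉ B} => φ P.1)
        (∏ S ∈ Finset.powersetCard ((m - 3) / 2) (Finset.univ : Finset (Fin m)),
          L S (s - ((m - 3) / 2 : ℕ))) := h1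
    have h2 := (Equiv.hasProd_iff (Equiv.subtypeEquivRight fun P => (hBm P).symm)
      (f := fun P : {P // P ∉ B} => φ P.1)).2 h1'
    exact h2
  · refine Finset.prod_ne_zero_iff.2 fun S hS h0 => ?_
    obtain ⟨-, k2, -, k4⟩ := hL S (Finset.mem_powersetCard.1 hS).2
    apply k2 hz
    rw [k4, h0]
    simp
  · show ∏ S ∈ Finset.powersetCard ((m - 3) / 2) (Finset.univ : Finset (Fin m)),
      L S (((m : ℂ) - 1) / 2 - ((m - 3) / 2 : ℕ)) = _
    rw [hcen]
    push_cast
    rw [← Finset.prod_mul_distrib]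
    exact Finset.prod_congr rfl fun S hS => (hL S (Finset.mem_powersetCard.1 hS).2).2.2.2

end Pool.Agent.H451.PV
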