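import Pool.Agent.H451.PV.A5
import Pool.Agent.H451.JR.Fin2

/-!
# Diagonal cubic hypersurfaces by height: all the parts of the conjecture
-/

set_option autoImplicit false
set_option linter.unusedSectionVars false
set_option linter.unusedVariables false

namespace Pool.Agent.H451.PV

open NumberField IsDedekindDomain Finset
open Pool.Agent.Y692.QS (Ei w toC nr nr_mul nr_nonneg nr_zero_iff)
open Pool.Agent.Y715.T.RecG (Pq)
open Pool.Agent.H451.BB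
open Pool.Agent.H451.CubT
open Pool.Agent.H451.JL (F sw nW GW)
open Pool.Agent.H451.JLM (NP)
open Pool.Agent.Y703.XK (SS c9)
open Pool.Agent.H451.JB
open scoped Classical PeriodPair

section
variable {K : Type} [Field K] [NumberField K] [IsCyclotomicExtension {3} ℚ K] (j : Ei ≃+* 𝓞 K)

/-- the general parameters over `𝓞 K` and over the Eisenstein integers -/
lemma gen_iff (hj : ∀ z : Ei, Algebra.norm ℤ (j z) = nr z) {D : 𝓞 K}
    (h3 : ¬ (3 : ℤ) ∣ Algebra.norm ℤ D) (hu : ∀ u c : 𝓞 K, IsUnit u → D ≠ u * c ^ 3) :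
    Gen (j.symm D) := by
  refine ⟨?_, fun u c hu' h => ?_⟩
  · rw [← hj, j.apply_symm_apply]
    exact h3
  · refine hu (j u) (j c) (hu'.map j) ?_
    have h1 := congrArg j h
    rw [j.apply_symm_apply, map_mul, map_pow] at h1
    exact h1

lemma norm_DS {m : ℕ} {a : Fin m → 𝓞 K} (ha : ∀ i, ¬ (3 : ℤ) ∣ Algebra.norm ℤ (a i))
    (S : Finset (Fin m)) : ¬ (3 : ℤ) ∣ Algebra.norm ℤ (DS a S) := by
  intro h
  unfold DS at h
  rw [map_mul, map_prod, map_prod] at h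
  rcases Int.prime_three.dvd_or_dvd h with h1 | h1
  · obtain ⟨i, -, hi⟩ := (Int.prime_three.dvd_finsetProd_iff _).1 h1
    exact ha i hi
  · obtain ⟨i, -, hi⟩ := (Int.prime_three.dvd_finsetProd_iff _).1 h1
    exact ha i hi

/-- every general hypersurface -/
theorem each (hj : ∀ z : Ei, Algebra.norm ℤ (j z) = nr z) {m : ℕ}
    (hm : m = 3 ∨ m = 5 ∨ m = 7) (a : Fin m → 𝓞 K) (ha : ∀ i, ¬ (3 : ℤ) ∣ Algebra.norm ℤ (a i))
    (hu : ∀ S : Finset (Fin m), S.card = (m - 3) / 2 → ∀ u c : 𝓞 K, IsUnit u → DS a S ≠ u * c ^ 3) :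
    Formula a ∧ ((ZE fun i => j.symm (a i)) → AllParts a) := by
  refine one j hj hm a (fun i h0 => ?_) fun S hS => ?_
  · apply ha i
    rw [h0]
    simp
  · have h2 : DD (fun i => j.symm (a i)) S = j.symm (DS a S) := DD_map (j.symm : 𝓞 K →+* Ei) a S
    rw [h2]
    exact gen_iff j hj (norm_DS ha S) (hu S hS)

/-- the class -/
theorem cls_gen (hj : ∀ z : Ei, Algebra.norm ℤ (j z) = nr z) {m : ℕ} {a : Fin m → 𝓞 K}
    (ha : ∀ i, Cls (a i)) (hA : AdmA a) : (∀ i, ¬ (3 : ℤ) ∣ Algebra.norm ℤ (a i)) ∧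
    ∀ S : Finset (Fin m), S.card = (m - 3) / 2 → ∀ u c : 𝓞 K, IsUnit u → DS a S ≠ u * c ^ 3 := by
  have h1 : ∀ i, ¬ (3 : ℤ) ∣ Algebra.norm ℤ (a i) := by
    intro i h
    have h2 := norm_mod j hj (ha i).1
    omega
  refine ⟨h1, fun S hS u c hu h => ?_⟩
  have h3 := norm_DS h1 S
  apply hA S hS
  have hu1 : Algebra.norm ℤ u = 1 := by
    have h4 : IsUnit (j.symm u) := hu.map j.symm
    rw [Pool.Agent.Y692.QS.isUnit_iff] at h4
    rw [← h4, ← hj, j.apply_symm_apply]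
  have h5 : Algebra.norm ℤ (DS a S) = Algebra.norm ℤ c ^ 3 := by
    rw [h, map_mul, map_pow, hu1, one_mul]
  have h6 : ¬ (3 : ℤ) ∣ Algebra.norm ℤ c := by
    intro h7
    apply h3
    rw [h5]
    exact Dvd.dvd.pow h7 (by norm_num)
  have h7 : Algebra.norm ℤ c % 3 = 1 := by
    have h8 : Algebra.norm ℤ c = nr (j.symm c) := by rw [← hj, j.apply_symm_apply]
    rw [h8] at h6 ⊢
    have h9 := Pool.Agent.H462.CTU.LK.nr_mod h6
    omega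
  have h8 := cube_mod h7
  rw [h5]
  omega

/-- trivial Selmer groups -/
theorem triv_ze (hj : ∀ z : Ei, Algebra.norm ℤ (j z) = nr z) {m : ℕ}
    (hm : m = 3 ∨ m = 5 ∨ m = 7) (a : Fin m → 𝓞 K) (h1 : ∀ i, Cls (a i)) (h2 : AdmA a)
    (h3 : TrivSel a) : ZE fun i => j.symm (a i) := by
  obtain ⟨h, hh⟩ : ∃ h : ℕ, h = (m - 3) / 2 := ⟨_, rfl⟩
  have hcard : (powersetCard h (univ : Finset (Fin m))).card = m.choose h := by
    rw [card_powersetCard, card_univ, Fintype.card_fin]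
  obtain ⟨ψ⟩ : Nonempty (Fin (m.choose h) ≃ powersetCard h (univ : Finset (Fin m))) :=
    ⟨(Finset.equivFinOfCardEq hcard).symm⟩
  obtain ⟨φ, hφ⟩ : ∃ φ : Fin (m.choose h) → Finset (Fin m), φ = fun i => (ψ i : Finset (Fin m)) :=
    ⟨_, rfl⟩
  have hφ2 : ∀ i, (φ i).card = h := by
    intro i
    rw [hφ]
    exact (mem_powersetCard.1 (ψ i).2).2
  have hφ3 : ∀ T : Finset (Fin m), T.card = (m - 3) / 2 → ∃ i, φ i = T := by
    intro T hT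
    obtain ⟨i, hi⟩ := ψ.surjective ⟨T, mem_powersetCard.2 ⟨subset_univ _, by rw [hT, hh]⟩⟩
    exact ⟨i, by rw [hφ]; show ((ψ i : _) : Finset (Fin m)) = T; rw [hi]⟩
  obtain ⟨X, hX⟩ : ∃ X : ℕ, ∀ i, Algebra.norm ℤ (a i) ≤ X := by
    refine ⟨∑ i, (Algebra.norm ℤ (a i)).natAbs, fun i => ?_⟩
    have h4 := Finset.single_le_sum (f := fun i => (Algebra.norm ℤ (a i)).natAbs)
      (fun i _ => Nat.zero_le _) (mem_univ i)
    have h5 := Int.le_natAbs (a := Algebra.norm ℤ (a i))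
    have h6 : (((Algebra.norm ℤ (a i)).natAbs : ℕ) : ℤ) ≤
      ((∑ i, (Algebra.norm ℤ (a i)).natAbs : ℕ) : ℤ) := by exact_mod_cast h4
    exact h5.trans h6
  obtain ⟨S, hSX, rfl⟩ := box_ex j hj X a fun i => ⟨h1 i, hX i⟩
  have hc := (adm_tuple j hj S).1 h2
  have hS := TT_Pq hSX
  have hG := (sel_tuple j hS φ (fun i => by rw [hφ2, hh]) hφ3 hc).2 h3
  rw [condT_iff] at hc
  have hsymm : (fun i => j.symm (j (∏ π ∈ S i, π))) = fun i => ∏ π ∈ S i, π := by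
    funext i
    rw [RingEquiv.symm_apply_apply]
  intro T hT
  obtain ⟨i, rfl⟩ := hφ3 T hT
  rw [hsymm]
  have hU : ∀ π ∈ UN S, Pq π := fun π hπ => by
    obtain ⟨l, hl⟩ := (mem_UN S).1 hπ
    exact hS l π hl
  refine ⟨_, 1, ∏ π ∈ UN S, π ^ (ex φ S i π / 3), Pool.Agent.H451.JL.t_BASE (UN S) (wT (WT φ) S i) 1 hU one_ne_zero
    (hG i) ?_, one_ne_zero, ?_, ?_⟩
  · rw [← nr_DD φ S i hS]
    exact hc (φ i) hT
  · rw [Finset.prod_ne_zero_iff]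
    exact fun π hπ => pow_ne_zero _ (hU π hπ).prime.ne_zero
  · rw [one_pow, one_mul]
    exact DD_cube φ S i

/-- all the parts for the trivial Selmer groups -/
theorem all_triv (hj : ∀ z : Ei, Algebra.norm ℤ (j z) = nr z) {m : ℕ}
    (hm : m = 3 ∨ m = 5 ∨ m = 7) (a : Fin m → 𝓞 K) (h1 : ∀ i, Cls (a i)) (h2 : AdmA a)
    (h3 : TrivSel a) : AllParts a := by
  obtain ⟨g1, g2⟩ := cls_gen j hj h1 h2
  exact (each j hj hm a g1 g2).2 (triv_ze j hj hm a h1 h2 h3)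

end

/-- the lattices exist -/
theorem per_ex {K : Type} [Field K] [NumberField K] [IsCyclotomicExtension {3} ℚ K] :
    (∃ δ : K, δ ^ 2 = -3) ∧ ∀ (m : ℕ) (a : Fin m → 𝓞 K), (∀ i, a i ≠ 0) → ∀ τ : K →+* ℂ,
      ∃ M : Idx m → PeriodPair, IsPer τ a M := by
  refine ⟨?_, fun m a ha τ => ?_⟩
  · have hζ := IsCyclotomicExtension.zeta_spec 3 ℚ K
    set ζ := IsCyclotomicExtension.zeta 3 ℚ K
    have h7 : ζ ^ 2 + ζ + 1 = 0 := by
      have h8 : (ζ - 1) * (ζ ^ 2 + ζ + 1) = 0 := by linear_combination hζ.pow_eq_one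
      exact (mul_eq_zero.1 h8).resolve_left (sub_ne_zero.2 (hζ.ne_one (by norm_num)))
    exact ⟨1 + 2 * ζ, by linear_combination 4 * h7⟩
  · have h1 : ∀ S : Idx m, ∃ M : PeriodPair, M.g₂ = 0 ∧
        M.g₃ = -(τ ((DS a S.1 : 𝓞 K) : K)) ^ 2 := fun S =>
      Pool.Agent.H508.Y.exists_period ((map_ne_zero τ).2 (by exact_mod_cast ds_ne ha S.1))
    choose M hM using h1
    exact ⟨M, hM⟩

/-- the determinants are not zero -/
theorem det_ne {K : Type} [Field K] {m : ℕ} (τ : K →+* ℂ) {δ : K} (hδ : δ ^ 2 = -3)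
    (M : Idx m → PeriodPair) : (PM τ δ M).det ≠ 0 := by
  have h1 : (τ δ) ^ 2 = -3 := by rw [← map_pow, hδ, map_neg, map_ofNat]
  unfold PM
  rw [Matrix.det_blockDiagonal]
  refine Finset.prod_ne_zero_iff.2 fun S _ => ?_
  rw [Matrix.det_fin_two_of]
  exact Pool.Agent.H508.Y.pdet_ne h1 (M S)

/-- **Main theorem.** -/
theorem final_PV (K : Type) [Field K] [NumberField K] [IsCyclotomicExtension {3} ℚ K] (m : ℕ)
    (hm : m = 3 ∨ m = 5 ∨ m = 7) :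
    (∀ a : Fin m → 𝓞 K, (∀ i, a i ≠ 0) → Mot a) ∧
    ((∃ δ : K, δ ^ 2 = -3) ∧ (∀ a : Fin m → 𝓞 K, (∀ i, a i ≠ 0) → ∀ τ : K →+* ℂ,
      ∃ M : Idx m → PeriodPair, IsPer τ a M) ∧
      ∀ (τ : K →+* ℂ) (δ : K) (M : Idx m → PeriodPair), δ ^ 2 = -3 → (PM τ δ M).det ≠ 0) ∧
    (∀ a : Fin m → 𝓞 K, (∀ i, ¬ (3 : ℤ) ∣ Algebra.norm ℤ (a i)) →
      (∀ S : Idx m, ∀ u c : 𝓞 K, IsUnit u → DS a S.1 ≠ u * c ^ 3) →
      Formula a ∧ ((∀ S : Idx m, Good (DS a S.1)) → AllParts a)) ∧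
    (∃ c : ℝ, 0 < c ∧ ∃ X₀ : ℕ, ∀ X : ℕ, X₀ ≤ X →
      c * ({a : Fin m → 𝓞 K | ∀ i, a i ≠ 0 ∧ Algebra.norm ℤ (a i) ≤ X}.ncard : ℝ) ≤
        ({a : Fin m → 𝓞 K | (∀ i, a i ≠ 0 ∧ Algebra.norm ℤ (a i) ≤ X) ∧ AllParts a}.ncard : ℝ)) ∧
    (∃ c : ℝ, 0 < c ∧ ∃ X₀ : ℕ, ∀ X : ℕ, X₀ ≤ X →
      c * (X : ℝ) ^ m ≤ ({a : Fin m → 𝓞 K | (∀ i, Cls (a i) ∧ Algebra.norm ℤ (a i) ≤ X) ∧
        AdmA a}.ncard : ℝ)) ∧
    (∀ a : Fin m → 𝓞 K, (∀ i, Cls (a i)) → AdmA a → TrivSel a → AllParts a) ∧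
    Filter.Tendsto (fun X : ℕ =>
      ({a : Fin m → 𝓞 K | (∀ i, Cls (a i) ∧ Algebra.norm ℤ (a i) ≤ X) ∧ AdmA a ∧
        TrivSel a}.ncard : ℝ) /
      ({a : Fin m → 𝓞 K | (∀ i, Cls (a i) ∧ Algebra.norm ℤ (a i) ≤ X) ∧ AdmA a}.ncard : ℝ))
      Filter.atTop (nhds ((∏' i : ℕ, (1 - (1 / 3 : ℝ) ^ (2 * i + 1))) ^
        m.choose ((m - 3) / 2))) := by
  obtain ⟨⟨j, hj⟩, -⟩ := Pool.Agent.Y455.CTK.jex K
  obtain ⟨-, ⟨c, hc, X₀, hlow⟩, -, hlim⟩ := final_box Pool.Agent.H451.JB.t_DQ' K m hm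
  obtain ⟨p1, p2⟩ := per_ex (K := K)
  refine ⟨fun a _ => mot j hm a, ⟨p1, p2 m, fun τ δ M hδ => det_ne τ hδ M⟩, fun a h3 hu => ?_, ?_,
    ⟨c, hc, X₀, hlow⟩, fun a h1 h2 h3 => all_triv j hj hm a h1 h2 h3, hlim⟩
  · obtain ⟨h4, h5⟩ := each j hj hm a h3 fun S hS => hu ⟨S, hS⟩
    exact ⟨h4, fun h => h5 (ze_good j hj a fun S hS => h ⟨S, hS⟩)⟩
  obtain ⟨-, -, c2, c3, -⟩ := Pool.Agent.Y703.XL.t_C9
  obtain ⟨h, hh⟩ : ∃ h : ℕ, h = (m - 3) / 2 := ⟨_, rfl⟩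
  rw [← hh] at hlim
  have hC1 : 1 ≤ m.choose h := Nat.choose_pos (by omega)
  have hlt : (0.639 : ℝ) ^ m.choose h < c9 ^ m.choose h :=
    pow_lt_pow_left₀ c3 (by norm_num) (by omega)
  have hev := hlim.eventually (lt_mem_nhds hlt)
  obtain ⟨X₁, hX1⟩ := Filter.eventually_atTop.1 hev
  obtain ⟨p, hp⟩ : ∃ p : ℝ, p = 0.639 ^ m.choose h * c := ⟨_, rfl⟩
  have hp0 : 0 < p := by rw [hp]; positivity
  refine ⟨p / 16 ^ m, by positivity, max X₀ (max X₁ 1), fun X hXX => ?_⟩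
  have a1 : X₀ ≤ X := le_trans (le_max_left _ _) hXX
  have a2 : X₁ ≤ X := le_trans (le_trans (le_max_left _ _) (le_max_right _ _)) hXX
  have a3 : 1 ≤ X := le_trans (le_trans (le_max_right _ _) (le_max_right _ _)) hXX
  obtain ⟨A, hA, hAc⟩ := card_all X a3
  have hsub : {a : Fin m → 𝓞 K | ∀ i, a i ≠ 0 ∧ Algebra.norm ℤ (a i) ≤ X} ⊆
      ((Fintype.piFinset fun _ : Fin m => A.image j : Finset (Fin m → 𝓞 K)) :
        Set (Fin m → 𝓞 K)) := by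
    intro a ha
    rw [Finset.mem_coe, Fintype.mem_piFinset]
    intro i
    rw [mem_image]
    refine ⟨j.symm (a i), hA _ ?_, j.apply_symm_apply _⟩
    rw [← hj, j.apply_symm_apply]
    exact (ha i).2
  have hfin : {a : Fin m → 𝓞 K | ∀ i, a i ≠ 0 ∧ Algebra.norm ℤ (a i) ≤ X}.Finite :=
    (Finset.finite_toSet _).subset hsub
  have h1 : ({a : Fin m → 𝓞 K | ∀ i, a i ≠ 0 ∧ Algebra.norm ℤ (a i) ≤ X}.ncard : ℝ) ≤
      (16 * X) ^ m := by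
    have h2 := Set.ncard_le_ncard hsub (Finset.finite_toSet _)
    rw [Set.ncard_coe_finset, Fintype.card_piFinset, prod_const, card_univ, Fintype.card_fin] at h2
    have h3 : (((A.image j).card ^ m : ℕ) : ℝ) ≤ (16 * X) ^ m := by
      push_cast
      refine pow_le_pow_left₀ (Nat.cast_nonneg _) (le_trans ?_ hAc) _
      exact_mod_cast card_image_le
    exact le_trans (by exact_mod_cast h2) h3
  have h4 : ({a : Fin m → 𝓞 K | (∀ i, Cls (a i) ∧ Algebra.norm ℤ (a i) ≤ X) ∧ AdmA a ∧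
        TrivSel a}.ncard : ℝ) ≤
      ({a : Fin m → 𝓞 K | (∀ i, a i ≠ 0 ∧ Algebra.norm ℤ (a i) ≤ X) ∧ AllParts a}.ncard : ℝ) := by
    have h5 : {a : Fin m → 𝓞 K | (∀ i, Cls (a i) ∧ Algebra.norm ℤ (a i) ≤ X) ∧ AdmA a ∧
        TrivSel a} ⊆
        {a : Fin m → 𝓞 K | (∀ i, a i ≠ 0 ∧ Algebra.norm ℤ (a i) ≤ X) ∧ AllParts a} := by
      rintro a ⟨g1, g2, g3⟩
      exact ⟨fun i => ⟨(g1 i).1.2.1.ne_zero, (g1 i).2⟩,
        all_triv j hj hm a (fun i => (g1 i).1) g2 g3⟩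
    exact_mod_cast Set.ncard_le_ncard h5 (hfin.subset fun a ha => ha.1)
  have h7 := hlow X a1
  have hpos : (0 : ℝ) < ({a : Fin m → 𝓞 K | (∀ i, Cls (a i) ∧ Algebra.norm ℤ (a i) ≤ X) ∧
      AdmA a}.ncard : ℝ) := by
    refine lt_of_lt_of_le ?_ h7
    have : (1 : ℝ) ≤ X := by exact_mod_cast a3
    positivity
  have h6 := hX1 X a2
  rw [lt_div_iff₀ hpos] at h6
  have h8 : p * (X : ℝ) ^ m ≤ 0.639 ^ m.choose h *
      ({a : Fin m → 𝓞 K | (∀ i, Cls (a i) ∧ Algebra.norm ℤ (a i) ≤ X) ∧ AdmA a}.ncard : ℝ) := by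
    rw [hp, mul_assoc]
    exact mul_le_mul_of_nonneg_left h7 (by positivity)
  calc p / 16 ^ m * ({a : Fin m → 𝓞 K | ∀ i, a i ≠ 0 ∧ Algebra.norm ℤ (a i) ≤ X}.ncard : ℝ) ≤
      p / 16 ^ m * (16 * X) ^ m := mul_le_mul_of_nonneg_left h1 (by positivity)
    _ = p * (X : ℝ) ^ m := by
      rw [mul_pow]
      field_simp
    _ ≤ _ := h8.trans (h6.le.trans h4)

end Pool.Agent.H451.PV
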