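import Mathlib
import Pool.Agent.H451.BB.Main
import Pool.Agent.H508.Y.A6
import Pool.Graph.R_seed8.Y715.T.Om

/-!
# The central value of the `L`-function of `y² + D y = x³` and the period
-/

set_option autoImplicit false
set_option linter.unusedSectionVars false
set_option linter.unusedVariables false

namespace Pool.Agent.H451.PV

open NumberField IsDedekindDomain WeierstrassCurve
open Pool.Agent.H921R2.TatePole (nm)
open Pool.Agent.Y703.CT
open Pool.Agent.Y696 hiding HH RR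
open Pool.Agent.Y696.CT
open Pool.Agent.Y696.CTK hiding toC_w
open Pool.Agent.Y692.QS hiding chi Jc Jc_nr chi_red chi_neg_one
open Pool.Agent.Y715.T.Rec (cs nn)
open Pool.Agent.Y715.T.RecG (Pq)
open Pool.Agent.Y715.T.Om (Om Om_pos exists_lat)
open Pool.Agent.H451.BB
open Pool.Agent.H462.CTU.Val (IsHLk)
open Pool.Agent.H462.CTU.LK (Dk gk gk_one gk_mul gk_prim)
open scoped Classical PeriodPair

section
variable {J : Type} [Fintype J] {π : J → Ei} {e : J → ZMod 3} {k : ZMod 3} {D : Ei}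

lemma fI_gk (hdt : Dt π e) (hD : Dk k π e D) (s : ℂ) (P : HeightOneSpectrum Ei) :
    fI (gk k π (fun j => -e j) s) P.asIdeal = xc D P * Np P ^ (-s) := by
  by_cases h3 : Over3 P
  · have h3' : (3 : ℤ) ∣ nr (gn P.asIdeal) := h3
    unfold xc fI
    rw [if_pos h3', if_pos (Or.inl h3), zero_mul]
  · have hs := rho_span h3
    have hpq := rho_pq h3
    rw [hs, fI_prim _ hpq.three, gk_prim hpq.three]
    unfold xc Np
    rw [rho_nr h3]
    by_cases hDD : rho P ∣ D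
    · rw [if_pos (Or.inr hDD), Pool.Agent.H462.CTU.LK.chD_bad hpq.prime hdt hD hDD]
      ring
    · rw [if_neg (by rintro (h | h) <;> contradiction),
        Pool.Agent.H462.CTU.LK.chD_prime Pool.Agent.Y350.CT.rec hdt hD hpq hDD]
      unfold tw
      ring

theorem plk (hdt : Dt π e) (hD : Dk k π e D) {F : ℂ → ℂ}
    (hF : IsHLk k π (fun i => -e i) F) (s : ℂ) (hs : 3 / 2 < s.re) :
    HasProd (fun P => (fac D s P)⁻¹) (F s * (starRingEnd ℂ) (F ((starRingEnd ℂ) s))) := by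
  have hsc : 3 / 2 < ((starRingEnd ℂ) s).re := by rwa [Complex.conj_re]
  have h1 : HasSum (fun α : {α : Ei // (3 : Ei) ∣ α - 1} => gk k π (fun i => -e i) s α) (F s) :=
    (hF.2 s hs).congr_fun fun α => gk_prim α.2 _ _ _
  have h2 : HasSum (fun α : {α : Ei // (3 : Ei) ∣ α - 1} =>
      gk k π (fun i => -e i) ((starRingEnd ℂ) s) α) (F ((starRingEnd ℂ) s)) :=
    (hF.2 _ hsc).congr_fun fun α => gk_prim α.2 _ _ _
  have h3 := hasProd_Ei (gk_one hdt.pq _ _ s) (gk_mul hdt.pq _ _ s) h1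
  have h4 := (hasProd_Ei (gk_one hdt.pq _ _ ((starRingEnd ℂ) s)) (gk_mul hdt.pq _ _ _) h2).map
    (starRingEnd ℂ) Complex.continuous_conj
  refine (h3.mul h4).congr_fun fun P => ?_
  unfold fac
  rw [Function.comp_apply, fI_gk hdt hD, fI_gk hdt hD, map_inv₀, map_sub, map_one, map_mul, conj_np,
    map_neg, Complex.conj_conj, mul_inv]

end

/-- the number `(Γ(1/3)³ / 2π)² N(d)^(-1/3)` -/
noncomputable def pn (n : ℤ) : ℝ := Om ^ 2 * (n : ℝ) ^ (-(1 / 3) : ℝ)

/-- the `L`-function of `y² + d y = x³` with a rational central value, up to the period -/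
def PLq (d : Ei) : Prop := ∃ L : ℂ → ℂ, Differentiable ℂ L ∧
  (∀ s : ℂ, 3 / 2 < s.re → HasProd (fun P => (fac d s P)⁻¹) (L s)) ∧
  ∃ q : ℚ, L 1 = q * (pn (nr d) : ℂ)

lemma normSq_toC (z : Ei) : Complex.normSq (toC z) = ((nr z : ℤ) : ℝ) := by
  have h := toC_normSq z
  exact_mod_cast h

lemma cube_root {x y : ℝ} (hx : 0 ≤ x) (hy : 0 < y) (h : x ^ 3 = y) : x⁻¹ = y ^ (-(1 / 3) : ℝ) := by
  rw [Real.rpow_neg hy.le, inv_inj, ← h, ← Real.rpow_natCast, ← Real.rpow_mul hx]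
  norm_num

theorem plq {J : Type} [Fintype J] [Nonempty J] {π : J → Ei} {e : J → ZMod 3} {k : ZMod 3} {D : Ei}
    (hdt : Dt π e) (hD : Dk k π e D) : PLq D := by
  have hdt' : Dt π (fun i => -e i) := ⟨hdt.pq, hdt.nd, fun j => neg_ne_zero.2 (hdt.e0 j)⟩
  obtain ⟨-, F, hF, -⟩ := Pool.Agent.H508.Y.act_val hdt' k
  obtain ⟨L, ξ, hξ, hC⟩ := exists_lat
  obtain ⟨θ, hθ⟩ := IsAlgClosed.exists_pow_nat_eq (toC D) (n := 3) (by norm_num)
  obtain ⟨q0, hq0⟩ := Pool.Agent.H508.Y.rat_val hC hdt hD hF hθ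
  have hDne : D ≠ 0 := Pool.Agent.H508.Y.dk_ne hdt hD
  have hnr : (0 : ℝ) < ((nr D : ℤ) : ℝ) := by
    have h1 : nr D ≠ 0 := fun h => hDne (nr_zero_iff.1 h)
    have h2 := nr_nonneg D
    have h3 : 0 < nr D := by omega
    exact_mod_cast h3
  have hθn : (Complex.normSq θ) ^ 3 = ((nr D : ℤ) : ℝ) := by
    rw [← map_pow, hθ, normSq_toC]
  have hθ0 : Complex.normSq θ ≠ 0 := by
    intro h0
    rw [h0] at hθn
    norm_num at hθn
    exact hnr.ne' hθn.symm
  have hΩ : Complex.normSq ((Om : ℂ) * ξ) = Om ^ 2 := by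
    have h1 : Complex.normSq ξ = 1 := by
      have h2 : (Complex.normSq ξ) ^ 12 = 1 := by rw [← map_pow, hξ, map_one]
      exact (pow_eq_one_iff_of_nonneg (Complex.normSq_nonneg _) (by norm_num)).1 h2
    rw [map_mul, h1, mul_one, Complex.normSq_ofReal, pow_two]
  refine ⟨fun s => F s * (starRingEnd ℂ) (F ((starRingEnd ℂ) s)), diff_conj hF.1,
    plk hdt hD hF, q0, ?_⟩
  show F 1 * (starRingEnd ℂ) (F ((starRingEnd ℂ) 1)) = _
  rw [map_one]
  unfold pn
  rw [← cube_root (Complex.normSq_nonneg θ) hnr hθn]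
  rw [hΩ] at hq0
  have h5 : (Complex.normSq θ : ℂ) ≠ 0 := by exact_mod_cast hθ0
  push_cast at hq0 ⊢
  field_simp
  linear_combination -hq0

/-- uniqueness -/
lemma prod_unique {D : Ei} {F G : ℂ → ℂ} (hF : Differentiable ℂ F) (hG : Differentiable ℂ G)
    (h1 : ∀ s : ℂ, 3 / 2 < s.re → HasProd (fun P => (fac D s P)⁻¹) (F s))
    (h2 : ∀ s : ℂ, 3 / 2 < s.re → HasProd (fun P => (fac D s P)⁻¹) (G s)) : F = G :=
  Pool.Agent.H508.Y.ent_eq hF hG fun s hs => (h1 s hs).unique (h2 s hs)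

/-! ### The factors at `s = 1` are rational -/

lemma xc_rat (d : Ei) (P : HeightOneSpectrum Ei) : ∃ t n : ℤ, xc d P + (starRingEnd ℂ) (xc d P) = t ∧
    xc d P * (starRingEnd ℂ) (xc d P) = n := by
  have key : ∀ z : Ei, toC z + (starRingEnd ℂ) (toC z) = ((2 * z.re - z.im : ℤ) : ℂ) := by
    intro z
    have hre : (toC z).re = z.re - z.im / 2 := by
      have h0 : toC z = z.re + z.im * wC := Pool.Agent.Y692.QS.toC_apply z
      have h1 : wC.re = -1 / 2 := rfl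
      rw [h0]
      simp only [Complex.add_re, Complex.mul_re, Complex.intCast_re, Complex.intCast_im, h1]
      ring
    rw [Complex.add_conj, hre]
    push_cast
    ring
  by_cases h : Over3 P ∨ rho P ∣ d
  · refine ⟨0, 0, ?_, ?_⟩ <;> · unfold xc; rw [if_pos h]; simp
  · have hx : xc d P = toC (w ^ (-cs (rho P) d).val * rho P) := by
      unfold xc tw
      rw [if_neg h, map_mul, map_pow]
    refine ⟨_, Pool.Agent.Y692.QS.nr (w ^ (-cs (rho P) d).val * rho P), by rw [hx]; exact key _, ?_⟩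
    rw [hx, Complex.mul_conj, toC_normSq]
    push_cast
    rfl

lemma fac_rat (d : Ei) (P : HeightOneSpectrum Ei) : ∃ q : ℚ, q ≠ 0 ∧ fac d 1 P = q := by
  obtain ⟨t, n, h1, h2⟩ := xc_rat d P
  have h3 : Np P ≠ 0 := by
    unfold Np
    have := np_two P
    have h : nr (gn P.asIdeal) ≠ 0 := by omega
    exact_mod_cast h
  have h4 : Np P ^ (-1 : ℂ) = (Np P)⁻¹ := by rw [Complex.cpow_neg, Complex.cpow_one]
  have h5 : fac d 1 P = ((1 - t * ((nr (gn P.asIdeal) : ℤ) : ℚ)⁻¹ +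
      n * (((nr (gn P.asIdeal) : ℤ) : ℚ)⁻¹) ^ 2 : ℚ) : ℂ) := by
    unfold fac
    rw [h4]
    unfold Np
    push_cast
    linear_combination -(((nr (gn P.asIdeal) : ℤ) : ℂ)⁻¹) * h1 +
      (((nr (gn P.asIdeal) : ℤ) : ℂ)⁻¹) ^ 2 * h2
  refine ⟨_, ?_, h5⟩
  intro h0
  rw [h0] at h5
  exact fac_ne (d := d) (P := P) (s := 1) (by rw [Complex.one_re]) (by rw [h5]; simp)

/-- removal of finitely many factors, and multiplication of the parameter by a cube; `nz` says that the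
value is not zero -/
theorem rem_val {D d b c : Ei} (hd : ∀ ρ : Ei, Prime ρ → ¬ ρ ^ 3 ∣ d) (hb : b ≠ 0) (hc : c ≠ 0)
    (h : b ^ 3 * D = c ^ 3 * d) (hL : PLq d) (hd0 : d ≠ 0) (S : Finset (HeightOneSpectrum Ei))
    (hS : ∀ P, P ∉ S → ¬ Over3 P ∧ ¬ rho P ∣ D) :
    ∃ L : ℂ → ℂ, Differentiable ℂ L ∧ (PL d → L 1 ≠ 0) ∧ (∀ s : ℂ, 3 / 2 < s.re →
      HasProd (fun P : {P // P ∉ S} => (fac D s P.1)⁻¹) (L s)) ∧
      ∃ q : ℚ, L 1 = q * (pn (nr D) : ℂ) := by
  obtain ⟨L, h1, h3, q, hq⟩ := hL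
  refine ⟨fun s => L s * ∏ P ∈ S, fac d s P,
    h1.mul (Differentiable.fun_finsetProd fun P _ => fac_diff d P),
    fun hPL => ?_, fun s hs => ?_, ?_⟩
  · obtain ⟨L', g1, g2, g3⟩ := hPL
    have h4 : L = L' := prod_unique h1 g1 h3 g3
    rw [h4]
    exact mul_ne_zero g2 (Finset.prod_ne_zero_iff.2 fun P _ => fac_ne (by rw [Complex.one_re]))
  · have h4 := h3 s hs
    have h5 : HasProd (fun P => if P ∈ S then fac d s P else 1) (∏ P ∈ S, fac d s P) := by
      have h6 := hasProd_prod_of_ne_finset_one (f := fun P => if P ∈ S then fac d s P else 1)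
        (s := S) (L := SummationFilter.unconditional _) (fun P hP => if_neg hP)
      have h7 : ∏ P ∈ S, (if P ∈ S then fac d s P else 1) = ∏ P ∈ S, fac d s P :=
        Finset.prod_congr rfl fun P hP => if_pos hP
      rwa [h7] at h6
    have h8 := h4.mul h5
    have h9 : Function.mulSupport (fun P => (fac d s P)⁻¹ * (if P ∈ S then fac d s P else 1)) ⊆
        {P | P ∉ S} := by
      intro P hP hPS
      apply hP
      have hPS' : P ∈ S := hPS
      show (fac d s P)⁻¹ * (if P ∈ S then fac d s P else 1) = 1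
      rw [if_pos hPS', inv_mul_cancel₀ (fac_ne (by linarith))]
    have h10 := (hasProd_subtype_iff_of_mulSupport_subset h9).2 h8
    refine h10.congr_fun fun P => ?_
    obtain ⟨k4, k5⟩ := hS P.1 P.2
    have e1 : fac D s P.1 = fac d s P.1 := by
      unfold fac
      rw [xc_cube k4 (hd _ (rho_pq k4).prime) hb hc h k5]
    show (fac D s P.1)⁻¹ = (fac d s P.1)⁻¹ * (if P.1 ∈ S then fac d s P.1 else 1)
    rw [e1, if_neg P.2, mul_one]
  · choose r hr0 hr using fun P => fac_rat d P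
    -- the norms
    have hn : ∀ z : Ei, z ≠ 0 → (0 : ℝ) < ((nr z : ℤ) : ℝ) := by
      intro z hz
      have h1 : nr z ≠ 0 := fun h => hz (nr_zero_iff.1 h)
      have h2 := nr_nonneg z
      have h3 : 0 < nr z := by omega
      exact_mod_cast h3
    have hD0 : D ≠ 0 := by
      rintro rfl
      rw [mul_zero] at h
      exact mul_ne_zero (pow_ne_zero 3 hc) hd0 h.symm
    have hN : ((nr b : ℤ) : ℝ) ^ 3 * ((nr D : ℤ) : ℝ) = ((nr c : ℤ) : ℝ) ^ 3 * ((nr d : ℤ) : ℝ) := by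
      have h5 := congrArg nr h
      have h6 : ∀ z : Ei, Pool.Agent.Y692.QS.nr (z ^ 3) = Pool.Agent.Y692.QS.nr z ^ 3 := fun z => by
        rw [pow_succ, pow_two, nr_mul, nr_mul]
        ring
      rw [nr_mul, nr_mul, h6, h6] at h5
      exact_mod_cast h5
    have hb1 := hn b hb
    have hc1 := hn c hc
    have hd1 := hn d hd0
    have hD1 := hn D hD0
    have e3 : ∀ x : ℝ, 0 < x → (x ^ 3) ^ (-(1 / 3) : ℝ) = x⁻¹ := by
      intro x hx
      exact (cube_root hx.le (pow_pos hx 3) rfl).symm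
    have hN' : (((nr d : ℤ) : ℝ)) ^ (-(1 / 3) : ℝ) =
        (((nr c : ℤ) : ℝ) / ((nr b : ℤ) : ℝ)) * (((nr D : ℤ) : ℝ)) ^ (-(1 / 3) : ℝ) := by
      have h6 : (((nr b : ℤ) : ℝ) ^ 3 * ((nr D : ℤ) : ℝ)) ^ (-(1 / 3) : ℝ) =
        (((nr c : ℤ) : ℝ) ^ 3 * ((nr d : ℤ) : ℝ)) ^ (-(1 / 3) : ℝ) := by rw [hN]
      rw [Real.mul_rpow (by positivity) hD1.le, Real.mul_rpow (by positivity) hd1.le, e3 _ hb1,
        e3 _ hc1] at h6
      field_simp at h6 ⊢
      linear_combination -h6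
    refine ⟨q * ((nr c : ℤ) / (nr b : ℤ) : ℚ) * ∏ P ∈ S, r P, ?_⟩
    show L 1 * ∏ P ∈ S, fac d 1 P = _
    rw [hq, Finset.prod_congr rfl fun P _ => hr P]
    unfold pn
    rw [hN']
    push_cast
    ring

end Pool.Agent.H451.PV
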