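import Pool.Agent.H451.PV.A2

/-!
# The periods
-/

set_option autoImplicit false
set_option linter.unusedSectionVars false
set_option linter.unusedVariables false

namespace Pool.Agent.H451.PV

open NumberField
open Pool.Agent.Y696 hiding HH RR
open Pool.Agent.Y692.QS (Ei w toC nr nr_nonneg nr_zero_iff)
open Pool.Agent.Y715.T.Om (Om Om_pos)
open Pool.Agent.H508.Y (pdet pdet_lat emb_cases)
open scoped Classical PeriodPair

/-- the lattice with `g₂ = 0`, `g₃ = -1` -/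
theorem exists_hex : ∃ (Ω : ℂ), Ω ≠ 0 ∧ Complex.normSq Ω = Om ^ 2 ∧
    (hex 1 one_ne_zero).g₃ = -Ω ^ 6 := by
  obtain ⟨e, he, h1, h3⟩ := Pool.Agent.Y715.T.Om.base
  have hI := Pool.Agent.Y715.T.Om.int_eq he h1 h3
  have hO := Pool.Agent.Y715.T.Om.Om_six he hI
  refine ⟨(Om : ℂ) * Complex.I, mul_ne_zero (by exact_mod_cast Om_pos.ne') Complex.I_ne_zero, ?_, ?_⟩
  · rw [map_mul, Complex.normSq_ofReal, Complex.normSq_I, mul_one, pow_two]
  · have h5 : Complex.I ^ 6 = -1 := by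
      have : Complex.I ^ 6 = Complex.I ^ 4 * Complex.I ^ 2 := by ring
      rw [this, Complex.I_pow_four, Complex.I_sq, one_mul]
    have h4 : ((Om : ℂ) * Complex.I) ^ 6 = -((Om ^ 6 : ℝ) : ℂ) := by
      rw [mul_pow, h5]
      push_cast
      ring
    rw [h4, hO, neg_neg, h3]

/-- the determinant of the periods of `y² + D y = x³` -/
theorem pdet_pn {K : Type} [Field K] [NumberField K] (j : Ei ≃+* 𝓞 K) {D : Ei} (hD0 : D ≠ 0)
    (τ : K →+* ℂ) {a : K} (ha : a ^ 2 = -3) {M : PeriodPair} (h2 : M.g₂ = 0)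
    (h3 : M.g₃ = -(τ (j D : K)) ^ 2) : ∃ q : ℚ, q ≠ 0 ∧ pdet (τ a) M = q * pn (nr D) := by
  obtain ⟨Ω, hΩ, hn, hg3⟩ := exists_hex
  set D' : ℂ := τ (j D : K) with hD'
  obtain ⟨θ', hθ'⟩ := IsAlgClosed.exists_pow_nat_eq D' (n := 3) (by norm_num)
  have hDn : Complex.normSq D' = ((nr D : ℤ) : ℝ) := by
    rw [← normSq_toC]
    rcases emb_cases j τ D with h | h
    · rw [hD', h]
    · rw [hD', h, Complex.normSq_conj]
  have hnr : (0 : ℝ) < ((nr D : ℤ) : ℝ) := by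
    have h1 : nr D ≠ 0 := fun h => hD0 (nr_zero_iff.1 h)
    have h2 := nr_nonneg D
    have h3 : 0 < nr D := by omega
    exact_mod_cast h3
  have hθn : (Complex.normSq θ') ^ 3 = ((nr D : ℤ) : ℝ) := by
    rw [← map_pow, hθ', hDn]
  have hθ'0 : θ' ≠ 0 := by
    rintro rfl
    rw [map_zero] at hθn
    norm_num at hθn
    exact hnr.ne' hθn.symm
  have hΩ' : Ω / θ' ≠ 0 := div_ne_zero hΩ hθ'0
  have hlat : M.lattice = (hex (Ω / θ') hΩ').lattice := by
    refine Pool.Agent.Y577.LU.lat_unique _ _ ?_ ?_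
    · rw [h2, hex_g2]
    · rw [h3, hex_g3_scale, hg3, ← hθ']
      field_simp
  have hδ : (τ a) ^ 2 = -3 := by rw [← map_pow, ha, map_neg, map_ofNat]
  obtain ⟨q1, hq1, hp⟩ := pdet_lat hδ hΩ' hlat
  refine ⟨q1, hq1, ?_⟩
  rw [hp, map_div₀, hn]
  unfold pn
  rw [← cube_root (Complex.normSq_nonneg θ') hnr hθn, div_eq_mul_inv]

/-- rationality of the product of the cube roots -/
lemma prod_cube {ι : Type} (S : Finset ι) (f : ι → ℤ) (hf : ∀ i ∈ S, 0 < f i) {N : ℤ} (hN : 0 < N)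
    {k : ℕ} (h : ∏ i ∈ S, f i = N ^ (3 * k)) :
    ∏ i ∈ S, pn (f i) = Om ^ (2 * S.card) * ((N : ℝ) ^ k)⁻¹ := by
  unfold pn
  rw [Finset.prod_mul_distrib, Finset.prod_const, ← pow_mul]
  congr 1
  rw [Real.finset_prod_rpow S (fun i => ((f i : ℤ) : ℝ)) (fun i hi => by
    exact_mod_cast (hf i hi).le)]
  have h1 : ∏ i ∈ S, ((f i : ℤ) : ℝ) = ((N : ℝ) ^ k) ^ 3 := by
    rw [← pow_mul, mul_comm k 3]
    exact_mod_cast h
  rw [h1]
  have hp : (0 : ℝ) < (N : ℝ) ^ k := pow_pos (by exact_mod_cast hN) k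
  exact (cube_root hp.le (pow_pos hp 3) rfl).symm

end Pool.Agent.H451.PV
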