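import Mathlib
import Pool.Agent.H451.BB.Def3

/-!
# The period matrix and the `L`-function of a diagonal cubic hypersurface
-/

set_option autoImplicit false

namespace Pool.Agent.H451.CubT

open NumberField IsDedekindDomain
open scoped PeriodPair

/-- The sets `S` of `(m - 3) / 2` of the `m` indices. -/
abbrev Idx (m : ℕ) : Type := {S : Finset (Fin m) // S.card = (m - 3) / 2}

section defs
variable {K : Type} [Field K] [NumberField K]

/-- On the half plane `Re s > m / 2` the function `Φ` is the `L`-function of the middle cohomology of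
`V : ∑ a_i x_i ^ 3 = 0` (degree `2 C(m, (m - 3) / 2)`: `2`, `10`, `42`), without the Euler factors at the
primes which divide `3` or some `a_i`. -/
def IsLFun {m : ℕ} (a : Fin m → 𝓞 K) (Φ : ℂ → ℂ) : Prop :=
  ∃ α : HeightOneSpectrum (𝓞 K) → Fin (2 * m.choose ((m - 3) / 2)) → ℂ,
    (∀ v, Gd a v → IsFrob a v (α v)) ∧
    ∀ s : ℂ, (m : ℝ) / 2 < s.re → HasProd (fun v : {v // Gd a v} =>
      ∏ j, (1 - α v.1 j * (Ideal.absNorm v.1.asIdeal : ℂ) ^ (-s))⁻¹) (Φ s)

/-- `Φ` is a continuation of the `L`-function to a meromorphic function on a connected open set which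
contains the half plane and the centre `(m - 1) / 2`. -/
def IsCont {m : ℕ} (a : Fin m → 𝓞 K) (Φ : ℂ → ℂ) : Prop :=
  IsLFun a Φ ∧ ∃ U : Set ℂ, IsOpen U ∧ IsPreconnected U ∧ ((m : ℂ) - 1) / 2 ∈ U ∧
    (∀ s : ℂ, (m : ℝ) / 2 < s.re → s ∈ U) ∧ MeromorphicOn Φ U

/-- `M S` is a basis `(ω₁, ω₂)` of the lattice of the periods of the differential `dx / (2 y + D_S)` on
the elliptic curve `y ^ 2 + τ(D_S) y = x ^ 3` over `ℂ`, that is, of the lattice with `g₂ = 0` and
`g₃ = -τ(D_S) ^ 2`, for all `S`. -/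
def IsPer {m : ℕ} (τ : K →+* ℂ) (a : Fin m → 𝓞 K) (M : Idx m → PeriodPair) : Prop :=
  ∀ S : Idx m, (M S).g₂ = 0 ∧ (M S).g₃ = -(τ ((DS a S.1 : 𝓞 K) : K)) ^ 2

/-- The period matrix `Π` of `V`, for the decomposition of its middle cohomology into the
`H¹(E_S)(-(m - 3) / 2)`: the blocks are the real parts of the periods `ω₁, ω₂` of
`ν = dx / (2 y + D_S)` and of the periods of `δ ν`, where `δ ^ 2 = -3`.  (`ν`, `δ ν` is a basis over `ℚ` of the
differentials of `E_S` over `K`.) -/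
noncomputable def PM {m : ℕ} (τ : K →+* ℂ) (δ : K) (M : Idx m → PeriodPair) :
    Matrix (Fin 2 × Idx m) (Fin 2 × Idx m) ℝ :=
  Matrix.blockDiagonal fun S =>
    !![(M S).ω₁.re, (M S).ω₂.re; (τ δ * (M S).ω₁).re, (τ δ * (M S).ω₂).re]

/-- The number `(Γ(1/3)³ / 2π) ^ (2 C(m, (m - 3) / 2))`, for `m = 3` times `N(a_1 a_2 a_3) ^ (-1/3)`. -/
noncomputable def num {m : ℕ} (a : Fin m → 𝓞 K) : ℝ :=
  (Real.Gamma (1 / 3) ^ 3 / (2 * Real.pi)) ^ (2 * m.choose ((m - 3) / 2)) *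
    if m = 3 then ((Algebra.norm ℤ (∏ i, a i) : ℤ) : ℝ) ^ (-(1 / 3) : ℝ) else 1

/-- The `L`-function of the middle cohomology of `V` is entire, and its value at the centre is a rational
multiple (perhaps zero) of `det Π` and of `num a`. -/
def Formula {m : ℕ} (a : Fin m → 𝓞 K) : Prop :=
  ∃ L : ℂ → ℂ, Differentiable ℂ L ∧ IsLFun a L ∧
    (∀ (τ : K →+* ℂ) (δ : K) (M : Idx m → PeriodPair), δ ^ 2 = -3 → IsPer τ a M →
      ∃ q : ℚ, L (((m : ℂ) - 1) / 2) = q * (PM τ δ M).det) ∧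
    ∃ q : ℚ, L (((m : ℂ) - 1) / 2) = q * num a

/-- All the parts of the conjecture for the middle cohomology of `V`, with `V^((m-1)/2) = 0`. -/
structure AllParts {m : ℕ} (a : Fin m → 𝓞 K) : Prop where
  /-- the groups `E_S(K)` are finite, (i) and (ii) -/
  finite : ∀ S : Idx m, Finite (E ((DS a S.1 : 𝓞 K) : K)).toAffine.Point
  /-- the `L`-function has an entire continuation (H1) -/
  entire : ∃ L : ℂ → ℂ, Differentiable ℂ L ∧ IsLFun a L
  /-- (iii) -/
  order : ∀ Φ : ℂ → ℂ, IsCont a Φ → meromorphicOrderAt Φ (((m : ℂ) - 1) / 2) = 0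
  /-- (iv) -/
  value : ∀ Φ : ℂ → ℂ, IsCont a Φ → ∀ (τ : K →+* ℂ) (δ : K) (M : Idx m → PeriodPair), δ ^ 2 = -3 →
    IsPer τ a M → ∃ q : ℚ, q ≠ 0 ∧
      meromorphicTrailingCoeffAt Φ (((m : ℂ) - 1) / 2) = q * (PM τ δ M).det
  /-- the leading coefficient is a rational multiple of `num a` -/
  number : ∀ Φ : ℂ → ℂ, IsCont a Φ → ∃ q : ℚ, q ≠ 0 ∧
    meromorphicTrailingCoeffAt Φ (((m : ℂ) - 1) / 2) = q * num a

end defs

end Pool.Agent.H451.CubT
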