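import Mathlib

/-!
# Interface of the task PV-UNIQ

`IsFrob0` is the definition `IsFrob` of `Pool/Agent/H451/BB/Def.lean` for one place: the numbers
`α 0, …, α (b - 1)` are given by the numbers of points of the affine cone over all the finite extensions
of the residue field.  TASK: prove `S_UNIQ`.

Proof. Let `k = 𝓞 K ⧸ v.asIdeal`, a finite field with `q = absNorm v` elements (`Ideal.absNorm`, the
quotient is a field since `v.asIdeal` is maximal: `v.isMaximal`; finite: `Ideal.finiteQuotientOfFreeOfNeBot`).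
For every `r ≥ 1` there is a field `F` with `q ^ r` elements and a ring homomorphism `𝓞 K →+* F` with
kernel `v.asIdeal` (for example `FiniteField.Extension k p r`, or a splitting field, or `GaloisField p (n r)`
with an embedding of `k`), so `∑ j, α j ^ r = ∑ j, β j ^ r` for all `r ≥ 1` (`q ^ r - 1 ≠ 0`).
By Newton's identities (`MvPolynomial.mul_esymm_eq_sum`, applied with `aeval α`, `aeval β`, strong induction)
the elementary symmetric polynomials of `α` and `β` agree, so `∏ j, (1 - α j * T) = ∏ j, (1 - β j * T)`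
(`Finset.prod_one_add`-like expansion, or `Multiset.prod_X_add_C_eq_sum_esymm`).
-/

set_option autoImplicit false

namespace Pool.Agent.H451.PV

open NumberField IsDedekindDomain

/-- the eigenvalues of the Frobenius at `v` -/
def IsFrob0 {K : Type} [Field K] [NumberField K] {m b : ℕ} (a : Fin m → 𝓞 K)
    (v : HeightOneSpectrum (𝓞 K)) (α : Fin b → ℂ) : Prop :=
  ∀ (F : Type) [Field F] [Fintype F] (f : 𝓞 K →+* F) (r : ℕ),
    (∀ x, f x = 0 ↔ x ∈ v.asIdeal) → Fintype.card F = Ideal.absNorm v.asIdeal ^ r →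
    (Nat.card {x : Fin m → F // ∑ i, f (a i) * x i ^ 3 = 0} : ℂ) =
      1 + ((Fintype.card F : ℂ) - 1) *
        (∑ i ∈ Finset.range (m - 1), (Fintype.card F : ℂ) ^ i - ∑ j, α j ^ r)

/-- the statement to prove -/
def S_UNIQ : Prop := ∀ (K : Type) [Field K] [NumberField K] (m b : ℕ) (a : Fin m → 𝓞 K)
  (v : HeightOneSpectrum (𝓞 K)) (α β : Fin b → ℂ), IsFrob0 a v α → IsFrob0 a v β →
    ∀ T : ℂ, ∏ j, (1 - α j * T) = ∏ j, (1 - β j * T)

end Pool.Agent.H451.PV
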