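import Pool.Agent.H451.PV.A3
import Pool.Agent.H451.PV.Def
import Pool.Agent.H451.PV.Stm

/-!
# Diagonal cubic hypersurfaces: the central values and the periods
-/

set_option autoImplicit false
set_option linter.unusedSectionVars false
set_option linter.unusedVariables false

namespace Pool.Agent.H451.PV

open NumberField IsDedekindDomain WeierstrassCurve
open Pool.Agent.H921R2.TatePole (nm)
open Pool.Agent.Y703.CT
open Pool.Agent.Y696 hiding HH RR
open Pool.Agent.Y696.CT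
open Pool.Agent.Y696.CTK hiding toC_w
open Pool.Agent.Y692.QS hiding chi Jc Jc_nr chi_red chi_neg_one
open Pool.Agent.Y715.T.Rec (cs nn)
open Pool.Agent.Y715.T.RecG (Pq)
open Pool.Agent.Y715.T.Om (Om Om_pos)
open Pool.Agent.H451.BB
open Pool.Agent.H451.CubT
open Pool.Agent.H462.CTU.LK (Dk)
open scoped Classical PeriodPair

section
variable {K : Type} [Field K] [NumberField K] [IsCyclotomicExtension {3} ℚ K] (j : Ei ≃+* 𝓞 K)

/-- the base parameters which are not one -/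
lemma base_plq {d : Ei} (h : Base d) (h1 : d ≠ 1) : PLq d := by
  rcases h with h | ⟨n, π, e, hdt, hk, h9, rfl⟩
  · exact absurd h h1
  · refine plq (k := 0) hdt (Or.inl ?_)
    rw [ZMod.val_zero, pow_zero, one_mul]

/-- a number whose cube times the cube of `b` is a cube -/
lemma cube_of {D b c : Ei} (hb : b ≠ 0) (h : b ^ 3 * D = c ^ 3) : ∃ t : Ei, D = 1 * t ^ 3 := by
  have h1 : b ^ 3 ∣ c ^ 3 := ⟨D, h.symm⟩
  have h2 : b ∣ c := (IsIntegrallyClosed.pow_dvd_pow_iff (by norm_num : (3 : ℕ) ≠ 0)).1 h1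
  obtain ⟨t, rfl⟩ := h2
  refine ⟨t, ?_⟩
  have h3 : b ^ 3 * D = b ^ 3 * t ^ 3 := by rw [h]; ring
  rw [one_mul]
  exact mul_left_cancel₀ (pow_ne_zero 3 hb) h3

/-- all the parameters of the curves are good -/
def ZE {m : ℕ} (a : Fin m → Ei) : Prop := ∀ S : Finset (Fin m), S.card = (m - 3) / 2 →
  ∃ d b c : Ei, Base d ∧ b ≠ 0 ∧ c ≠ 0 ∧ b ^ 3 * DD a S = c ^ 3 * d

lemma ze_good (hj : ∀ z : Ei, Algebra.norm ℤ (j z) = Pool.Agent.Y692.QS.nr z) {m : ℕ}
    (a : Fin m → 𝓞 K) (h : ∀ S : Finset (Fin m), S.card = (m - 3) / 2 → Good (DS a S)) :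
    ZE fun i => j.symm (a i) := by
  have hi : ∀ x : 𝓞 K, x ≠ 0 → j.symm x ≠ 0 := fun x hx h => hx (by
    rw [← j.apply_symm_apply x, h, map_zero])
  intro S hS
  obtain ⟨b, c, d, hb, hc, hbc, hd⟩ := h S hS
  refine ⟨j.symm d, j.symm b, j.symm c, base_of j hj hd, hi b hb, hi c hc, ?_⟩
  have h1 := congrArg j.symm hbc
  rw [map_mul, map_mul, map_pow, map_pow] at h1
  have h2 : DD (fun i => j.symm (a i)) S = j.symm (DS a S) := DD_map (j.symm : 𝓞 K →+* Ei) a S
  rw [h2]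
  exact h1

/-- the hypersurface, over the Eisenstein integers -/
theorem valE (hj : ∀ z : Ei, Algebra.norm ℤ (j z) = Pool.Agent.Y692.QS.nr z) {m : ℕ}
    (hm : m = 3 ∨ m = 5 ∨ m = 7) (a : Fin m → 𝓞 K) (ha : ∀ i, a i ≠ 0)
    (hG : ∀ S : Finset (Fin m), S.card = (m - 3) / 2 → Gen (DD (fun i => j.symm (a i)) S)) :
    ∃ L : ℂ → ℂ, Differentiable ℂ L ∧ IsLFun a L ∧
      ∃ q : ℚ, ((ZE fun i => j.symm (a i)) → q ≠ 0) ∧
        L (((m : ℂ) - 1) / 2) = q * ((∏ S ∈ Finset.powersetCard ((m - 3) / 2)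
          (Finset.univ : Finset (Fin m)), pn (Algebra.norm ℤ (DS a S)) : ℝ) : ℂ) := by
  have hi : ∀ x : 𝓞 K, x ≠ 0 → j.symm x ≠ 0 := fun x hx h => hx (by
    rw [← j.apply_symm_apply x, h, map_zero])
  have hDD : ∀ S : Finset (Fin m), DD (fun i => j.symm (a i)) S = j.symm (DS a S) := fun S =>
    DD_map (j.symm : 𝓞 K →+* Ei) a S
  have hE : ∀ S : Finset (Fin m), S.card = (m - 3) / 2 → ∃ d b c : Ei, PLq d ∧
      (∀ ρ : Ei, Prime ρ → ¬ ρ ^ 3 ∣ d) ∧ d ≠ 0 ∧ b ≠ 0 ∧ c ≠ 0 ∧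
      b ^ 3 * DD (fun i => j.symm (a i)) S = c ^ 3 * d ∧
      ((ZE fun i => j.symm (a i)) → PL d) := by
    intro S hS
    by_cases hZ : ZE fun i => j.symm (a i)
    · obtain ⟨d, b, c, hB, hb, hc, h1⟩ := hZ S hS
      obtain ⟨p1, p2, p3, -⟩ := base_all j hB
      have hd1 : d ≠ 1 := by
        intro h2
        rw [h2, mul_one] at h1
        obtain ⟨t, ht⟩ := cube_of hb h1
        exact (hG S hS).2 1 t isUnit_one ht
      exact ⟨d, b, c, base_plq hB hd1, p2, p3, hb, hc, h1, fun _ => p1⟩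
    · obtain ⟨c, d, hc, hd, hcd, h3, hp⟩ := gen_base (hG S hS)
      exact ⟨d, 1, c, hp, h3, hd, one_ne_zero, hc, by rw [one_pow, one_mul]; exact hcd,
        fun h => absurd h hZ⟩
  obtain ⟨L, h1, h3, q, hq, h4⟩ := famV hm (fun i => j.symm (a i)) (fun i => hi _ (ha i)) _ hE
  have hcard : Fintype.card ({S : Finset (Fin m) // S.card = (m - 3) / 2} × Bool) =
      2 * m.choose ((m - 3) / 2) := by
    rw [Fintype.card_prod, Fintype.card_finset_len, Fintype.card_fin, Fintype.card_bool,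
      mul_comm]
  set φ := (Fintype.equivFinOfCardEq hcard).symm with hφ
  refine ⟨L, h1, ⟨fun v i => ev (fun i => j.symm (a i)) ((eK j).symm v) (φ i), ?_, ?_⟩, q, hq, ?_⟩
  · intro v hv F _ _ f r hf hr
    obtain ⟨P, rfl⟩ := (eK j).surjective v
    simp only [Equiv.symm_apply_apply]
    have hP := (gd_iff j a P).2 hv
    have h0 : (eK j P) = pK j P := rfl
    have e1 : ∀ x, f (j x) = 0 ↔ x ∈ P.asIdeal := by
      intro x
      rw [hf, h0, mem_pK]
    have e2 : (Fintype.card F : ℤ) = Pool.Agent.Y692.QS.nr (gn P.asIdeal) ^ r := by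
      rw [← nm_P j P, hr, h0]
      push_cast
      rfl
    have e3 := ev_count hm hP (f.comp (j : Ei →+* 𝓞 K)) e1 e2
    have e4 : ∀ i, (f.comp (j : Ei →+* 𝓞 K)) (j.symm (a i)) = f (a i) := fun i =>
      congrArg f (j.apply_symm_apply (a i))
    simp only [e4] at e3
    rw [e3, φ.sum_comp fun i => ev (fun i => j.symm (a i)) P i ^ r]
  · intro s hs
    have h4 := h3 s hs
    have e1 : ∀ v : HeightOneSpectrum (𝓞 K),
        ∏ i, (1 - ev (fun i => j.symm (a i)) ((eK j).symm v) (φ i) *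
          (Ideal.absNorm v.asIdeal : ℂ) ^ (-s))⁻¹ =
        ∏ S ∈ Finset.powersetCard ((m - 3) / 2) (Finset.univ : Finset (Fin m)),
        (fac (DD (fun i => j.symm (a i)) S) (s - ((m - 3) / 2 : ℕ)) ((eK j).symm v))⁻¹ := by
      intro v
      obtain ⟨P, rfl⟩ := (eK j).surjective v
      rw [Equiv.symm_apply_apply, ← ev_prod]
      have e2 : (Ideal.absNorm (eK j P).asIdeal : ℂ) = Np P := by
        have h0 : (eK j P) = pK j P := rfl
        unfold Np
        rw [← nm_P j P, h0]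
        push_cast
        rfl
      rw [e2]
      exact φ.prod_comp fun i => (1 - ev (fun i => j.symm (a i)) P i * Np P ^ (-s))⁻¹
    have h5 : HasProd (fun v : {v // Gd a v} =>
        ∏ S ∈ Finset.powersetCard ((m - 3) / 2) (Finset.univ : Finset (Fin m)),
        (fac (DD (fun i => j.symm (a i)) S) (s - ((m - 3) / 2 : ℕ)) ((eK j).symm v.1))⁻¹)
        (L s) := by
      have h6 := (Equiv.hasProd_iff ((eK j).subtypeEquiv (p := GoodP fun i => j.symm (a i))
        (q := Gd a) (gd_iff j a))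
        (f := fun v : {v // Gd a v} =>
          ∏ S ∈ Finset.powersetCard ((m - 3) / 2) (Finset.univ : Finset (Fin m)),
          (fac (DD (fun i => j.symm (a i)) S) (s - ((m - 3) / 2 : ℕ))
            ((eK j).symm v.1))⁻¹) (a := L s)).1
      apply h6
      refine h4.congr_fun fun P => ?_
      show ∏ S ∈ Finset.powersetCard ((m - 3) / 2) (Finset.univ : Finset (Fin m)),
          (fac (DD (fun i => j.symm (a i)) S) (s - ((m - 3) / 2 : ℕ))
            ((eK j).symm (eK j P.1)))⁻¹ = _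
      rw [Equiv.symm_apply_apply]
    exact h5.congr_fun fun v => e1 v.1
  · rw [h4]
    congr 2
    refine Finset.prod_congr rfl fun S _ => ?_
    rw [hDD, ← hj, j.apply_symm_apply]

end

end Pool.Agent.H451.PV
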