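import Pool.Agent.H451.PV.Stm

/-!
# PV-UNIQ: the power sums determine the Euler factor
-/

set_option autoImplicit false

namespace Pool.Agent.H451.PV

open NumberField IsDedekindDomain

namespace Uniq

open MvPolynomial Finset in
/-- Newton: the power sums determine the elementary symmetric functions. -/
theorem esymm_eq {b : ℕ} (α β : Fin b → ℂ)
    (h : ∀ r : ℕ, 1 ≤ r → ∑ j, α j ^ r = ∑ j, β j ^ r) (k : ℕ) :
    aeval α (esymm (Fin b) ℂ k) = aeval β (esymm (Fin b) ℂ k) := by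
  induction k using Nat.strong_induction_on with
  | _ k ih =>
    rcases Nat.eq_zero_or_pos k with rfl | hk
    · simp
    · have key : ∀ γ : Fin b → ℂ, (k : ℂ) * aeval γ (esymm (Fin b) ℂ k) = (-1) ^ (k + 1) *
          ∑ a ∈ antidiagonal k with a.1 < k,
            (-1) ^ a.1 * aeval γ (esymm (Fin b) ℂ a.1) * ∑ j, γ j ^ a.2 := by
        intro γ
        have h1 := congrArg (aeval γ) (mul_esymm_eq_sum (Fin b) ℂ k)
        simp only [map_mul, map_natCast, map_pow, map_neg, map_one, map_sum, psum, aeval_X] at h1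
        exact h1
      have hk0 : (k : ℂ) ≠ 0 := by exact_mod_cast hk.ne'
      apply mul_left_cancel₀ hk0
      rw [key α, key β]
      congr 1
      refine Finset.sum_congr rfl fun a ha => ?_
      rw [Finset.mem_filter, Finset.HasAntidiagonal.mem_antidiagonal] at ha
      rw [ih a.1 ha.2, h a.2 (by omega)]

open MvPolynomial Finset in
/-- The product as a sum. -/
theorem prod_eq {b : ℕ} (α : Fin b → ℂ) (T : ℂ) :
    ∏ j, (1 - α j * T) =
      ∑ k ∈ Finset.range (b + 1), (-T) ^ k * aeval α (esymm (Fin b) ℂ k) := by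
  have h1 : ∏ j, (1 - α j * T) = ∏ j, (1 + (-T) * α j) := by
    refine Finset.prod_congr rfl fun j _ => ?_
    ring
  rw [h1, Finset.prod_one_add, Finset.sum_powerset, Finset.card_univ, Fintype.card_fin]
  refine Finset.sum_congr rfl fun k _ => ?_
  rw [esymm, map_sum, Finset.mul_sum]
  refine Finset.sum_congr rfl fun t ht => ?_
  rw [Finset.prod_mul_distrib, Finset.prod_const, (Finset.mem_powersetCard.1 ht).2, map_prod]
  simp only [aeval_X]

/-- The power sums agree. -/
theorem psum_eq {K : Type} [Field K] [NumberField K] {m b : ℕ} (a : Fin m → 𝓞 K)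
    (v : HeightOneSpectrum (𝓞 K)) (α β : Fin b → ℂ) (hα : IsFrob0 a v α) (hβ : IsFrob0 a v β)
    (r : ℕ) (hr : 1 ≤ r) : ∑ j, α j ^ r = ∑ j, β j ^ r := by
  have : NeZero r := ⟨by omega⟩
  have hmax : v.asIdeal.IsMaximal := v.isMaximal
  let : Field (𝓞 K ⧸ v.asIdeal) := Ideal.Quotient.field v.asIdeal
  have : Finite (𝓞 K ⧸ v.asIdeal) := Ideal.finiteQuotientOfFreeOfNeBot v.asIdeal v.ne_bot
  obtain ⟨p, hp⟩ := CharP.exists (𝓞 K ⧸ v.asIdeal)
  have := hp
  have : Fact p.Prime := ⟨CharP.char_is_prime (𝓞 K ⧸ v.asIdeal) p⟩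
  let : Fintype (FiniteField.Extension (𝓞 K ⧸ v.asIdeal) p r) := Fintype.ofFinite _
  let f : 𝓞 K →+* FiniteField.Extension (𝓞 K ⧸ v.asIdeal) p r :=
    (algebraMap (𝓞 K ⧸ v.asIdeal) (FiniteField.Extension (𝓞 K ⧸ v.asIdeal) p r)).comp
      (Ideal.Quotient.mk v.asIdeal)
  have hf : ∀ x, f x = 0 ↔ x ∈ v.asIdeal := by
    intro x
    change (algebraMap (𝓞 K ⧸ v.asIdeal) (FiniteField.Extension (𝓞 K ⧸ v.asIdeal) p r))
      (Ideal.Quotient.mk v.asIdeal x) = 0 ↔ _
    rw [map_eq_zero, Ideal.Quotient.eq_zero_iff_mem]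
  have hcard : Fintype.card (FiniteField.Extension (𝓞 K ⧸ v.asIdeal) p r) =
      Ideal.absNorm v.asIdeal ^ r := by
    rw [← Nat.card_eq_fintype_card, FiniteField.natCard_extension, Ideal.absNorm_apply,
      Submodule.cardQuot_apply]
  have h1 := hα _ f r hf hcard
  have h2 := hβ _ f r hf hcard
  rw [h1] at h2
  have hq : (Fintype.card (FiniteField.Extension (𝓞 K ⧸ v.asIdeal) p r) : ℂ) - 1 ≠ 0 := by
    have h3 : 1 < Fintype.card (FiniteField.Extension (𝓞 K ⧸ v.asIdeal) p r) :=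
      Fintype.one_lt_card
    intro h4
    have h5 : (Fintype.card (FiniteField.Extension (𝓞 K ⧸ v.asIdeal) p r) : ℂ) = (1 : ℕ) := by
      rw [Nat.cast_one]
      exact sub_eq_zero.1 h4
    have h6 := Nat.cast_injective h5
    omega
  have h3 := mul_left_cancel₀ hq (add_left_cancel h2)
  exact sub_right_injective h3

end Uniq

theorem t_UNIQ : S_UNIQ := by
  intro K _ _ m b a v α β hα hβ T
  rw [Uniq.prod_eq, Uniq.prod_eq]
  refine Finset.sum_congr rfl fun k _ => ?_
  rw [Uniq.esymm_eq α β (fun r hr => Uniq.psum_eq a v α β hα hβ r hr) k]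

end Pool.Agent.H451.PV
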