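import Pool.Agent.H451.PV.A4
import Pool.Agent.H451.PV.Uniq
import Pool.Agent.H451.BB.Main2

/-!
# Diagonal cubic hypersurfaces: all the parts of the conjecture
-/

set_option autoImplicit false
set_option linter.unusedSectionVars false
set_option linter.unusedVariables false

namespace Pool.Agent.H451.PV

open NumberField IsDedekindDomain WeierstrassCurve Filter
open Pool.Agent.H508.Y (pdet)
open Pool.Agent.Y692.QS (Ei nr nr_mul nr_nonneg nr_zero_iff)
open Pool.Agent.Y715.T.Om (Om Om_pos)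
open Pool.Agent.H451.BB
open Pool.Agent.H451.CubT
open scoped Classical PeriodPair Topology

/-! ### continuations -/

lemma cont_eq {Φ Ψ : ℂ → ℂ} {U : Set ℂ} {c : ℂ} {r : ℝ} (hU : IsOpen U) (hc : IsPreconnected U)
    (h1 : c ∈ U) (h2 : ∀ s : ℂ, r < s.re → s ∈ U) (hΦ : MeromorphicOn Φ U) (hΨ : Differentiable ℂ Ψ)
    (h : ∀ s : ℂ, r < s.re → Φ s = Ψ s) : Φ =ᶠ[𝓝[≠] c] Ψ := by
  have hf : MeromorphicOn (Φ - Ψ) U := hΦ.sub fun s _ => (hΨ.analyticAt s).meromorphicAt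
  have hr : r < (((r + 1 : ℝ)) : ℂ).re := by
    rw [Complex.ofReal_re]
    linarith
  have h3 : meromorphicOrderAt (Φ - Ψ) ((r + 1 : ℝ) : ℂ) = ⊤ := by
    rw [meromorphicOrderAt_eq_top_iff]
    have hopen : IsOpen {s : ℂ | r < s.re} :=
      isOpen_lt continuous_const Complex.continuous_re
    filter_upwards [nhdsWithin_le_nhds (hopen.mem_nhds hr)] with s hs
    show Φ s - Ψ s = 0
    rw [h s hs, sub_self]
  have h4 : meromorphicOrderAt (Φ - Ψ) c = ⊤ := by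
    by_contra h5
    exact (hf.meromorphicOrderAt_ne_top_of_isPreconnected hc h1 (h2 _ hr) h5) h3
  rw [meromorphicOrderAt_eq_top_iff] at h4
  filter_upwards [h4] with s hs
  exact sub_eq_zero.1 hs

lemma cont_order {Φ Ψ : ℂ → ℂ} {c : ℂ} (h : Φ =ᶠ[𝓝[≠] c] Ψ) (hΨ : Differentiable ℂ Ψ)
    (h1 : Ψ c ≠ 0) :
    meromorphicOrderAt Φ c = 0 ∧ meromorphicTrailingCoeffAt Φ c = Ψ c := by
  rw [meromorphicOrderAt_congr h, meromorphicTrailingCoeffAt_congr_nhdsNE h,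
    (hΨ.analyticAt c).meromorphicTrailingCoeffAt_of_ne_zero h1,
    (hΨ.analyticAt c).meromorphicOrderAt_eq, (hΨ.analyticAt c).analyticOrderAt_eq_zero.2 h1]
  exact ⟨rfl, rfl⟩

/-! ### the products -/

lemma pset_prod {m : ℕ} {A : Type} [CommMonoid A] (F : Finset (Fin m) → A) :
    ∏ S ∈ Finset.powersetCard ((m - 3) / 2) (Finset.univ : Finset (Fin m)), F S =
      ∏ S : Idx m, F S.1 := prod_sub F

/-- every index is in the same number of sets -/
def mult (m : ℕ) : ℕ := if m = 5 then 1 else if m = 7 then 6 else 0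

lemma card_mem {m : ℕ} (hm : m = 3 ∨ m = 5 ∨ m = 7) : ∀ i : Fin m,
    ((Finset.powersetCard ((m - 3) / 2) (Finset.univ : Finset (Fin m))).filter fun S => i ∈ S).card =
      mult m := by
  rcases hm with rfl | rfl | rfl
  · decide
  · decide
  · decide +kernel

lemma prod_DS {m : ℕ} (hm : m = 3 ∨ m = 5 ∨ m = 7) {R : Type} [CommRing R] (a : Fin m → R) :
    ∏ S ∈ Finset.powersetCard ((m - 3) / 2) (Finset.univ : Finset (Fin m)), DS a S =
      (∏ i, a i) ^ (m.choose ((m - 3) / 2) + mult m) := by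
  unfold DS
  rw [Finset.prod_mul_distrib, Finset.prod_const, Finset.card_powersetCard, Finset.card_univ,
    Fintype.card_fin, pow_add]
  congr 1
  have h1 : ∀ S : Finset (Fin m), ∏ i ∈ S, a i = ∏ i, if i ∈ S then a i else 1 := by
    intro S
    rw [Finset.prod_ite_mem, Finset.univ_inter]
  rw [Finset.prod_congr rfl fun S _ => h1 S, Finset.prod_comm, ← Finset.prod_pow]
  refine Finset.prod_congr rfl fun i _ => ?_
  rw [Finset.prod_ite, Finset.prod_const_one, mul_one, Finset.prod_const, card_mem hm i]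

section
variable {K : Type} [Field K] [NumberField K] [IsCyclotomicExtension {3} ℚ K] (j : Ei ≃+* 𝓞 K)

lemma norm_pos (hj : ∀ z : Ei, Algebra.norm ℤ (j z) = nr z) {x : 𝓞 K} (hx : x ≠ 0) :
    0 < Algebra.norm ℤ x := by
  have h1 : Algebra.norm ℤ x = nr (j.symm x) := by rw [← hj, j.apply_symm_apply]
  have h2 : j.symm x ≠ 0 := fun h => hx (by rw [← j.apply_symm_apply x, h, map_zero])
  have h3 : nr (j.symm x) ≠ 0 := fun h => h2 (nr_zero_iff.1 h)
  have h4 := nr_nonneg (j.symm x)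
  omega

lemma ds_ne {m : ℕ} {a : Fin m → 𝓞 K} (ha : ∀ i, a i ≠ 0) (S : Finset (Fin m)) : DS a S ≠ 0 := by
  unfold DS
  exact mul_ne_zero (Finset.prod_ne_zero_iff.2 fun i _ => ha i)
    (Finset.prod_ne_zero_iff.2 fun i _ => ha i)

/-- the product of the numbers of the curves -/
lemma prod_num (hj : ∀ z : Ei, Algebra.norm ℤ (j z) = nr z) {m : ℕ}
    (hm : m = 3 ∨ m = 5 ∨ m = 7) {a : Fin m → 𝓞 K} (ha : ∀ i, a i ≠ 0) :
    ∃ q : ℚ, q ≠ 0 ∧ ∏ S ∈ Finset.powersetCard ((m - 3) / 2) (Finset.univ : Finset (Fin m)),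
      pn (Algebra.norm ℤ (DS a S)) = q * num a := by
  have hN : 0 < Algebra.norm ℤ (∏ i, a i) :=
    norm_pos j hj (Finset.prod_ne_zero_iff.2 fun i _ => ha i)
  have hprod : ∏ S ∈ Finset.powersetCard ((m - 3) / 2) (Finset.univ : Finset (Fin m)),
      Algebra.norm ℤ (DS a S) =
      (Algebra.norm ℤ (∏ i, a i)) ^ (m.choose ((m - 3) / 2) + mult m) := by
    rw [← map_prod, prod_DS hm, map_pow]
  have hpos : ∀ S ∈ Finset.powersetCard ((m - 3) / 2) (Finset.univ : Finset (Fin m)),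
      0 < Algebra.norm ℤ (DS a S) := fun S _ => norm_pos j hj (ds_ne ha S)
  have key : ∀ k : ℕ, m ≠ 3 → m.choose ((m - 3) / 2) + mult m = 3 * k →
      ∃ q : ℚ, q ≠ 0 ∧ ∏ S ∈ Finset.powersetCard ((m - 3) / 2) (Finset.univ : Finset (Fin m)),
        pn (Algebra.norm ℤ (DS a S)) = q * num a := by
    intro k h3 hk
    rw [hk] at hprod
    refine ⟨(((Algebra.norm ℤ (∏ i, a i) : ℤ) : ℚ) ^ k)⁻¹,
      inv_ne_zero (pow_ne_zero _ (by exact_mod_cast hN.ne')), ?_⟩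
    rw [prod_cube _ _ hpos hN hprod]
    unfold num
    rw [if_neg h3, mul_one, Finset.card_powersetCard, Finset.card_univ, Fintype.card_fin]
    push_cast
    rw [mul_comm]
    rfl
  rcases hm with rfl | rfl | rfl
  · refine ⟨1, one_ne_zero, ?_⟩
    have e1 : (3 - 3) / 2 = 0 := rfl
    rw [e1, Finset.powersetCard_zero, Finset.prod_singleton]
    unfold num pn DS
    rw [Finset.prod_empty, mul_one, if_pos rfl]
    norm_num
    left
    rfl
  · exact key 2 (by norm_num) (by decide)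
  · exact key 9 (by norm_num) (by decide)

/-- the determinant of the period matrix -/
lemma det_PM {m : ℕ} {a : Fin m → 𝓞 K} (ha : ∀ i, a i ≠ 0)
    (hj : ∀ z : Ei, Algebra.norm ℤ (j z) = nr z)
    (τ : K →+* ℂ) {δ : K} (hδ : δ ^ 2 = -3) {M : Idx m → PeriodPair} (hM : IsPer τ a M) :
    ∃ q : ℚ, q ≠ 0 ∧ (PM τ δ M).det =
      q * ∏ S ∈ Finset.powersetCard ((m - 3) / 2) (Finset.univ : Finset (Fin m)),
        pn (Algebra.norm ℤ (DS a S)) := by
  have h1 : ∀ S : Idx m, ∃ q : ℚ, q ≠ 0 ∧ pdet (τ δ) (M S) = q * pn (Algebra.norm ℤ (DS a S.1)) := by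
    intro S
    have h2 : j.symm (DS a S.1) ≠ 0 := fun h => ds_ne ha S.1 (by
      rw [← j.apply_symm_apply (DS a S.1), h, map_zero])
    obtain ⟨q, hq, h3⟩ := pdet_pn j h2 τ hδ (hM S).1 (by
      rw [j.apply_symm_apply]
      exact (hM S).2)
    refine ⟨q, hq, ?_⟩
    rw [h3, ← hj, j.apply_symm_apply]
  choose q hq0 hq using h1
  refine ⟨∏ S, q S, Finset.prod_ne_zero_iff.2 fun S _ => hq0 S, ?_⟩
  rw [pset_prod]
  unfold PM
  rw [Matrix.det_blockDiagonal]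
  push_cast
  rw [← Finset.prod_mul_distrib]
  refine Finset.prod_congr rfl fun S _ => ?_
  rw [← hq S, Matrix.det_fin_two_of]
  rfl

/-- uniqueness of the `L`-function -/
lemma lfun_unique {m : ℕ} {a : Fin m → 𝓞 K} {Φ Ψ : ℂ → ℂ} (h1 : IsLFun a Φ) (h2 : IsLFun a Ψ)
    {s : ℂ} (hs : (m : ℝ) / 2 < s.re) : Φ s = Ψ s := by
  obtain ⟨α, a1, a2⟩ := h1
  obtain ⟨β, b1, b2⟩ := h2
  refine (a2 s hs).unique ((b2 s hs).congr_fun fun v => ?_)
  rw [Finset.prod_inv_distrib, Finset.prod_inv_distrib,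
    t_UNIQ K m _ a v.1 (α v.1) (β v.1) (a1 v.1 v.2) (b1 v.1 v.2)]

/-- **One hypersurface.** -/
theorem one (hj : ∀ z : Ei, Algebra.norm ℤ (j z) = nr z) {m : ℕ}
    (hm : m = 3 ∨ m = 5 ∨ m = 7) (a : Fin m → 𝓞 K) (ha : ∀ i, a i ≠ 0)
    (hG : ∀ S : Finset (Fin m), S.card = (m - 3) / 2 → Gen (DD (fun i => j.symm (a i)) S)) :
    Formula a ∧ ((ZE fun i => j.symm (a i)) → AllParts a) := by
  obtain ⟨L, h1, h2, q, hq, hL⟩ := valE j hj hm a ha hG
  obtain ⟨r, hr0, hr⟩ := prod_num j hj hm ha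
  have hper : ∀ (τ : K →+* ℂ) (δ : K) (M : Idx m → PeriodPair), δ ^ 2 = -3 → IsPer τ a M →
      ∃ t : ℚ, t ≠ 0 ∧ L (((m : ℂ) - 1) / 2) = (q / t : ℚ) * (PM τ δ M).det := by
    intro τ δ M hδ hM
    obtain ⟨t, ht0, ht⟩ := det_PM j ha hj τ hδ hM
    refine ⟨t, ht0, ?_⟩
    rw [hL, ht]
    have ht' : (t : ℂ) ≠ 0 := by exact_mod_cast ht0
    push_cast
    field_simp
  have hnum : L (((m : ℂ) - 1) / 2) = (q * r : ℚ) * num a := by
    rw [hL, hr]
    push_cast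
    ring
  refine ⟨⟨L, h1, h2, fun τ δ M hδ hM => ?_, _, hnum⟩, fun hZ => ?_⟩
  · obtain ⟨t, -, ht⟩ := hper τ δ M hδ hM
    exact ⟨_, ht⟩
  · have hq0 := hq hZ
    have hne : L (((m : ℂ) - 1) / 2) ≠ 0 := by
      rw [hL, hr]
      have hn : num a ≠ 0 := by
        unfold num
        have g1 : 0 < Real.Gamma (1 / 3) := Real.Gamma_pos_of_pos (by norm_num)
        have g2 := Real.pi_pos
        refine mul_ne_zero (pow_ne_zero _ (by positivity)) ?_
        split_ifs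
        · have hN : (0 : ℝ) < ((Algebra.norm ℤ (∏ i, a i) : ℤ) : ℝ) := by
            exact_mod_cast norm_pos j hj (Finset.prod_ne_zero_iff.2 fun i _ => ha i)
          exact (Real.rpow_pos_of_pos hN _).ne'
        · exact one_ne_zero
      have h5 : (q : ℂ) ≠ 0 := by exact_mod_cast hq0
      have h6 : (((r : ℝ) * num a : ℝ) : ℂ) ≠ 0 := by
        have : (r : ℝ) * num a ≠ 0 := mul_ne_zero (by exact_mod_cast hr0) hn
        exact_mod_cast this
      exact mul_ne_zero h5 h6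
    have hBB := mainE j hj hm a ha hZ
    have hcont : ∀ Φ : ℂ → ℂ, IsCont a Φ → meromorphicOrderAt Φ (((m : ℂ) - 1) / 2) = 0 ∧
        meromorphicTrailingCoeffAt Φ (((m : ℂ) - 1) / 2) = L (((m : ℂ) - 1) / 2) := by
      rintro Φ ⟨g1, U, g2, g3, g4, g5, g6⟩
      exact cont_order (cont_eq g2 g3 g4 g5 g6 h1 fun s hs => lfun_unique g1 h2 hs) h1 hne
    refine ⟨fun S => hBB.1 S.1 S.2, ⟨L, h1, h2⟩, fun Φ hΦ => (hcont Φ hΦ).1,
      fun Φ hΦ τ δ M hδ hM => ?_, fun Φ hΦ => ⟨q * r, mul_ne_zero hq0 hr0, ?_⟩⟩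
    · obtain ⟨t, ht0, ht⟩ := hper τ δ M hδ hM
      exact ⟨q / t, div_ne_zero hq0 ht0, by rw [(hcont Φ hΦ).2, ht]⟩
    · rw [(hcont Φ hΦ).2, hnum]

end

end Pool.Agent.H451.PV
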